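import Pool.Agent.H90.BpbProof

set_option autoImplicit false

namespace Pool.Agent.Results.MP_78fc4b_an.NotUC

open Pool.Agent.H90.AseDefs

universe u

/-- A universal BPBp-ASE domain need not be uniformly convex. -/
theorem result (𝕜 : Type) [RCLike 𝕜] :
    ¬ ∀ (X : Type) [NormedAddCommGroup X] [NormedSpace 𝕜 X] [CompleteSpace X],
      (∀ (Z : Type u) [NormedAddCommGroup Z] [NormedSpace 𝕜 Z] [CompleteSpace Z],
        BPBpASE 𝕜 X Z) → UniformConvexSpace X := fun h => by
  obtain ⟨X, i1, i2, i3, h1, h2⟩ := Pool.Agent.H90.BpbProof.not_uc (𝕜 := 𝕜)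
  have : CompleteSpace X := FiniteDimensional.complete 𝕜 X
  exact h2 (h X fun Z _ _ _ => Pool.Agent.H90.AseLocal.universal h1)

end Pool.Agent.Results.MP_78fc4b_an.NotUC
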